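import Pool.Agent.Helper6.CXT.RES
import Pool.Agent.Helper50.CXA.Ex3

/-!
Translation lengths of complex hyperbolic triangle groups decrease along the deformation up to the
threshold: all triples with orders at most 9 (and all right angled ones).
-/

set_option autoImplicit false

namespace Pool.Agent.Helper12.Old.SmallOrders

open Pool.Agent.Helper6.MONO

theorem result : ∀ p q r : ℕ, 2 ≤ p → p ≤ q → q ≤ r → (p = 2 ∨ r ≤ 9) →
    (1 : ℝ) / p + 1 / q + 1 / r < 1 → FULLAt p q r :=
  full_of fun p q r hp hpq hqr hr hne =>
    Pool.Agent.Helper50.EX3.fin_ex3 p q r hp hpq hqr hr hne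

end Pool.Agent.Helper12.Old.SmallOrders
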